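import Pool.Agent.Lib.MP_b1a3a4_al.MVS.Interfaces

/-!
# Project MVS, part IV (limit groups): definitions

Real `ℓ²`-spaces on sets, restriction and translation operators, multi-derivations, the bar complex.
-/

set_option linter.all false

namespace Pool.Agent.Lib.MP_b1a3a4_al.MVS.LG

open Finsupp

/-! ## `ℓ²`-spaces -/

/-- the real Hilbert space `ℓ²(Ω)` -/
abbrev L2 (Ω : Type) : Type := lp (fun _ : Ω => ℝ) 2

noncomputable instance instL2a (Ω : Type) : NormedAddCommGroup (L2 Ω) := inferInstance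
noncomputable instance instL2b (Ω : Type) : InnerProductSpace ℝ (L2 Ω) := inferInstance
noncomputable instance instL2c (Ω : Type) : NormedSpace ℝ (L2 Ω) := inferInstance
noncomputable instance instL2d (Ω : Type) : CompleteSpace (L2 Ω) := inferInstance
noncomputable instance instL2e (Ω : Type) : Module ℝ (L2 Ω) := inferInstance
noncomputable instance instL2f (Ω : Type) : AddCommGroup (L2 Ω) := inferInstance
noncomputable instance instL2g (Ω : Type) : AddCommMonoid (L2 Ω) := inferInstance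
noncomputable instance instL2h (Ω : Type) : SeminormedAddCommGroup (L2 Ω) := inferInstance
noncomputable instance instL2i (Ω : Type) : TopologicalSpace (L2 Ω) := inferInstance

lemma memL2 {Ω : Type} (f : Ω → ℝ) : Memℓp f 2 ↔ Summable (fun ω => (f ω) ^ 2) := by
  rw [memℓp_gen_iff (by norm_num : (0 : ℝ) < (2 : ENNReal).toReal)]
  simp

lemma L2.summable {Ω : Type} (ξ : L2 Ω) : Summable (fun ω => (ξ ω) ^ 2) := (memL2 _).1 ξ.2

lemma L2.norm_sq {Ω : Type} (ξ : L2 Ω) : ‖ξ‖ ^ 2 = ∑' ω, (ξ ω) ^ 2 := by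
  have h := lp.norm_rpow_eq_tsum (by norm_num : (0 : ℝ) < (2 : ENNReal).toReal) ξ
  simpa using h

lemma L2.inner_eq {Ω : Type} (ξ η : L2 Ω) : inner ℝ ξ η = ∑' ω, ξ ω * η ω := by
  rw [lp.inner_eq_tsum]
  congr 1
  funext ω
  simp [mul_comm]

/-- restriction of functions along an injective map -/
noncomputable def pull {Ω Ω' : Type} (e : Ω' → Ω) (he : Function.Injective e) :
    L2 Ω →L[ℝ] L2 Ω' :=
  LinearMap.mkContinuous
    { toFun := fun ξ => ⟨fun ω' => ξ (e ω'), (memL2 _).2 (ξ.summable.comp_injective he)⟩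
      map_add' := fun ξ η => by ext ω'; rfl
      map_smul' := fun c ξ => by ext ω'; rfl }
    1 (by
      intro ξ
      rw [one_mul]
      refine (sq_le_sq₀ (norm_nonneg _) (norm_nonneg _)).1 ?_
      rw [L2.norm_sq, L2.norm_sq]
      exact (ξ.summable.comp_injective he).tsum_le_tsum_of_inj e he (fun _ _ => sq_nonneg _)
        (fun _ => le_refl _) ξ.summable)

@[simp] lemma pull_apply {Ω Ω' : Type} (e : Ω' → Ω) (he : Function.Injective e) (ξ : L2 Ω)
    (ω' : Ω') : pull e he ξ ω' = ξ (e ω') := rfl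

/-- translation of functions by a permutation -/
noncomputable def tr {Ω : Type} (σ : Equiv.Perm Ω) : L2 Ω →L[ℝ] L2 Ω := pull σ.symm σ.symm.injective

@[simp] lemma tr_apply {Ω : Type} (σ : Equiv.Perm Ω) (ξ : L2 Ω) (ω : Ω) :
    tr σ ξ ω = ξ (σ.symm ω) := rfl

lemma tr_mul {Ω : Type} (σ τ : Equiv.Perm Ω) (ξ : L2 Ω) : tr (σ * τ) ξ = tr σ (tr τ ξ) := by
  ext ω; rfl

lemma tr_one {Ω : Type} (ξ : L2 Ω) : tr (1 : Equiv.Perm Ω) ξ = ξ := by
  ext ω; rfl

lemma norm_tr {Ω : Type} (σ : Equiv.Perm Ω) (ξ : L2 Ω) : ‖tr σ ξ‖ = ‖ξ‖ := by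
  refine (sq_eq_sq₀ (norm_nonneg _) (norm_nonneg _)).1 ?_
  rw [L2.norm_sq, L2.norm_sq]
  exact σ.symm.tsum_eq (fun ω => (ξ ω) ^ 2)

lemma inner_tr {Ω : Type} (σ : Equiv.Perm Ω) (ξ η : L2 Ω) :
    inner ℝ (tr σ ξ) (tr σ η) = inner ℝ ξ η := by
  rw [L2.inner_eq, L2.inner_eq]
  exact σ.symm.tsum_eq (fun ω => ξ ω * η ω)

open Classical in
/-- basis vectors -/
noncomputable def bv {Ω : Type} (ω : Ω) : L2 Ω := lp.single 2 ω (1 : ℝ)

lemma bv_self {Ω : Type} (ω : Ω) : (bv ω : L2 Ω) ω = 1 := by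
  simp [bv]

lemma bv_ne {Ω : Type} {ω ω' : Ω} (h : ω' ≠ ω) : (bv ω : L2 Ω) ω' = 0 := by
  simp [bv, h]

lemma norm_bv {Ω : Type} (ω : Ω) : ‖(bv ω : L2 Ω)‖ = 1 := by
  simp [bv, lp.norm_single]

lemma inner_bv {Ω : Type} (ω : Ω) (ξ : L2 Ω) : inner ℝ (bv ω) ξ = ξ ω := by
  rw [L2.inner_eq, tsum_eq_single ω]
  · rw [bv_self, one_mul]
  · intro ω' h
    rw [bv_ne h, zero_mul]

lemma tr_bv {Ω : Type} (σ : Equiv.Perm Ω) (ω : Ω) : tr σ (bv ω) = bv (σ ω) := by
  ext ω'
  rw [tr_apply]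
  by_cases h : ω' = σ ω
  · subst h
    rw [bv_self, Equiv.symm_apply_apply, bv_self]
  · rw [bv_ne h, bv_ne]
    intro h2
    apply h
    rw [← h2, Equiv.apply_symm_apply]

/-- orthogonal projections -/
structure IsPr {H : Type} [NormedAddCommGroup H] [InnerProductSpace ℝ H] (P : H →L[ℝ] H) : Prop where
  idem : ∀ ξ, P (P ξ) = P ξ
  symm : ∀ ξ η, inner ℝ (P ξ) η = inner ℝ ξ (P η)

/-- operators that are equivariant for two actions by permutations -/
def Eqv {T Ω Ω' : Type} [Group T] (α : T →* Equiv.Perm Ω) (β : T →* Equiv.Perm Ω')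
    (A : L2 Ω →L[ℝ] L2 Ω') : Prop := ∀ t ξ, A (tr (α t) ξ) = tr (β t) (A ξ)

/-- the elements of `F` lie in different orbits -/
def DiffOrb {T Ω : Type} [Group T] (α : T →* Equiv.Perm Ω) (F : Finset Ω) : Prop :=
  ∀ ω ∈ F, ∀ ω' ∈ F, ∀ t, α t ω = ω' → ω = ω'

/-- free actions -/
def FreeAct {T Ω : Type} [Group T] (α : T →* Equiv.Perm Ω) : Prop := ∀ t ω, α t ω = ω → t = 1

/-! ## Translations on groups -/

/-- left multiplication, as a homomorphism to permutations -/
def lmP (G : Type) [Group G] : G →* Equiv.Perm G := MulAction.toPermHom G G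

/-- right multiplication by the inverse, as a homomorphism to permutations -/
def rmP (G : Type) [Group G] : G →* Equiv.Perm G where
  toFun g := Equiv.mulRight g⁻¹
  map_one' := by ext h; simp
  map_mul' a b := by ext h; simp [mul_assoc]

/-- left translation on `ℓ²(G)`: `e_h ↦ e_{gh}` -/
noncomputable def lm {G : Type} [Group G] (g : G) : L2 G →L[ℝ] L2 G := tr (lmP G g)

/-- right translation on `ℓ²(G)`: `e_h ↦ e_{hg⁻¹}` -/
noncomputable def rm {G : Type} [Group G] (g : G) : L2 G →L[ℝ] L2 G := tr (rmP G g)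

@[simp] lemma lm_apply {G : Type} [Group G] (g : G) (ξ : L2 G) (h : G) :
    lm g ξ h = ξ (g⁻¹ * h) := rfl

@[simp] lemma rm_apply {G : Type} [Group G] (g : G) (ξ : L2 G) (h : G) :
    rm g ξ h = ξ (h * g) := by
  show ξ ((Equiv.mulRight g⁻¹).symm h) = ξ (h * g)
  simp

lemma lm_mul {G : Type} [Group G] (g h : G) (ξ : L2 G) : lm (g * h) ξ = lm g (lm h ξ) := by
  ext k; simp [mul_assoc]

@[simp] lemma lm_one {G : Type} [Group G] (ξ : L2 G) : lm (1 : G) ξ = ξ := by
  ext k; simp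

lemma lm_rm {G : Type} [Group G] (g h : G) (ξ : L2 G) : lm g (rm h ξ) = rm h (lm g ξ) := by
  ext k; simp [mul_assoc]

/-- right translation on `ℓ²(X × G)` -/
def rmX (X G : Type) [Group G] : G →* Equiv.Perm (X × G) where
  toFun g := (Equiv.refl X).prodCongr (rmP G g)
  map_one' := by ext p <;> simp
  map_mul' a b := by ext p <;> simp

/-- the component of a vector of `ℓ²(X × G)` -/
noncomputable def co {X G : Type} (i : X) : L2 (X × G) →L[ℝ] L2 G :=
  pull (fun g => (i, g)) (fun _ _ h => (Prod.ext_iff.1 h).2)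

@[simp] lemma co_apply {X G : Type} (i : X) (u : L2 (X × G)) (g : G) : co i u g = u (i, g) := rfl

/-! ## Free pairs and limit groups -/

/-- `a` and `b` generate a free group of rank 2 -/
def FreePair {K : Type} [Group K] (a b : K) : Prop :=
  Function.Injective (FreeGroup.lift (fun i : Bool => cond i a b))

/-- The operator `4 - a - a⁻¹ - b - b⁻¹` -/
noncomputable def Lap {K Ω : Type} [Group K] (α : K →* Equiv.Perm Ω) (a b : K) :
    L2 Ω →L[ℝ] L2 Ω :=
  (4 : ℝ) • ContinuousLinearMap.id ℝ (L2 Ω) - tr (α a) - tr (α a⁻¹) - tr (α b) - tr (α b⁻¹)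

/-- fully residually free groups -/
def FRF (L : Type) [Group L] : Prop :=
  ∀ X : Finset L, ∃ (F : Type) (_ : Group F) (_ : IsFreeGroup F) (f : L →* F),
    Set.InjOn f (X : Set L)

/-- non-abelian groups -/
def NonAb (L : Type) [Group L] : Prop := ∃ a b : L, a * b ≠ b * a

/-- derivations with values in `ℓ²(L)` -/
def Der {L : Type} [Group L] (δ : L → L2 L) : Prop := ∀ g h, δ (g * h) = δ g + lm g (δ h)

/-- derivations along a homomorphism -/
def DerA {Γ L : Type} [Group Γ] [Group L] (φ : Γ →* L) (δ : Γ → L2 L) : Prop :=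
  ∀ g h, δ (g * h) = δ g + lm (φ g) (δ h)

/-- the subspace of the vectors `u` of `ℓ²(L)^r` with `∑ (x_i⁻¹ - 1) u_i = 0` for which the
derivation of the free group with the values `u_i` vanishes on the words `w` -/
def InV {r m : ℕ} {L : Type} [Group L] (φ : FreeGroup (Fin r) →* L)
    (w : Fin m → FreeGroup (Fin r)) (u : L2 (Fin r × L)) : Prop :=
  (∑ i, (lm (φ (FreeGroup.of i))⁻¹ (co i u) - co i u)) = 0 ∧
  ∀ δ : FreeGroup (Fin r) → L2 L, DerA φ δ → (∀ i, δ (FreeGroup.of i) = co i u) →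
    ∀ l, δ (w l) = 0

/-! ## Multi-derivations -/

section multi

variable {n : ℕ} {L : Fin n → Type} [∀ j, Group (L j)]

/-- derivations in each variable, with values in `ℓ²(∏ L_j)` -/
def MDer (w : (∀ j, L j) → L2 (∀ j, L j)) : Prop :=
  ∀ (j : Fin n) (x : ∀ j, L j) (g h : L j),
    w (Function.update x j (g * h)) =
      w (Function.update x j g) + lm (Pi.mulSingle j g) (w (Function.update x j h))

/-- orthogonality to the elements that are inner in the variable `j` -/
def Orth {r : Fin n → ℕ} (x : ∀ j, Fin (r j) → L j)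
    (u : L2 ((∀ j, Fin (r j)) × (∀ j, L j))) : Prop :=
  ∀ (j : Fin n) (a : (∀ j, Fin (r j)) → L2 (∀ j, L j)),
    (∀ i k, a (Function.update i j k) = a i) →
    ∑ i, inner ℝ (co i u) (lm (Pi.mulSingle j (x j (i j))) (a i) - a i) = 0

end multi

/-- functions of `n` variables `x_j ∈ K_j` that are sums of functions that are inner in one of the
variables -/
def PI {n : ℕ} {K : Fin n → Type} [∀ j, Group (K j)] {Ω : Type}
    (α : ∀ j, K j →* Equiv.Perm Ω) (v : (∀ j, K j) → L2 Ω) : Prop :=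
  ∃ a : Fin n → (∀ j, K j) → L2 Ω, (∀ j x g, a j (Function.update x j g) = a j x) ∧
    ∀ x, v x = ∑ j, (tr (α j (x j)) (a j x) - a j x)

/-! ## The bar complex -/

/-- the group of `q`-chains of the bar complex -/
abbrev BC (S : Type) (q : ℕ) : Type := (Fin (q + 1) → S) →₀ ℤ

/-- the boundary -/
noncomputable def bd (S : Type) (q : ℕ) : BC S (q + 1) →+ BC S q :=
  Finsupp.liftAddHom (fun t => (zmultiplesHom _
    (∑ k : Fin (q + 2), ((-1 : ℤ) ^ (k : ℕ)) • Finsupp.single (fun i => t (k.succAbove i)) (1 : ℤ))))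

/-- the action of the group -/
noncomputable def act {S : Type} [Group S] {q : ℕ} (s : S) : BC S q →+ BC S q :=
  Finsupp.mapDomain.addMonoidHom (fun t => fun i => s * t i)

/-- evaluation of a cochain -/
noncomputable def ev {S V : Type} [AddCommGroup V] {q : ℕ} (c : (Fin (q + 1) → S) → V) :
    BC S q →+ V := Finsupp.liftAddHom (fun t => (zmultiplesHom V (c t)))

@[simp] lemma ev_single {S V : Type} [AddCommGroup V] {q : ℕ} (c : (Fin (q + 1) → S) → V)
    (t : Fin (q + 1) → S) (a : ℤ) : ev c (Finsupp.single t a) = a • c t := by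
  simp [ev]

/-- the action on the chains of a free resolution -/
noncomputable def sact {S Y : Type} [Group S] (s : S) (v : Y →₀ MonoidAlgebra ℤ S) :
    Y →₀ MonoidAlgebra ℤ S := (MonoidAlgebra.single s (1 : ℤ)) • v

/-- the cup product of `n` differences -/
noncomputable def cup {S V : Type} [AddCommGroup V] :
    (n : ℕ) → ((Fin n → S) → V) → ((Fin (n + 1) → S) → V)
  | 0, w, _ => w (fun i => i.elim0)
  | n + 1, w, s => cup n (fun t => w (Fin.snoc t (s (Fin.last (n + 1)))) -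
      w (Fin.snoc t (s (Fin.castSucc (Fin.last n))))) (fun i => s (Fin.castSucc i))

/-- right multiplication by `y` on the bar complex -/
noncomputable def rmul {S : Type} [Group S] {q : ℕ} (y : S) : BC S q →+ BC S q :=
  Finsupp.mapDomain.addMonoidHom (fun t => fun i => t i * y)

/-- the prism operator -/
noncomputable def pri {S : Type} [Group S] (y : S) (q : ℕ) : BC S q →+ BC S (q + 1) :=
  Finsupp.liftAddHom (fun t => (zmultiplesHom _
    (∑ i : Fin (q + 1), ((-1 : ℤ) ^ (i : ℕ)) • Finsupp.single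
      (fun l : Fin (q + 2) => t (i.predAbove l) * (if Fin.castSucc i < l then y else 1)) (1 : ℤ))))

/-- the equivariant extension of a function on the basis -/
noncomputable def ext {S Ω Y : Type} [Group S] (α : S →* Equiv.Perm Ω) (b : Y → L2 Ω) :
    (Y →₀ MonoidAlgebra ℤ S) →+ L2 Ω :=
  Finsupp.liftAddHom (fun y =>
    (Finsupp.liftAddHom (fun s => zmultiplesHom (L2 Ω) (tr (α s) (b y)))).comp
      MonoidAlgebra.coeffAddEquiv.toAddMonoidHom)

lemma ext_single {S Ω Y : Type} [Group S] (α : S →* Equiv.Perm Ω) (b : Y → L2 Ω) (y : Y) (s : S)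
    (a : ℤ) : ext α b (Finsupp.single y (MonoidAlgebra.single s a)) = a • tr (α s) (b y) := by
  simp [ext]

/-- the chain groups of a free resolution that are relevant for type `FP_{k+1}`, compared with the
bar complex -/
structure BarFP (S : Type) [Group S] (k : ℕ) where
  Y : Type
  Y' : Type
  finY : Finite Y
  finY' : Finite Y'
  dd : (Y →₀ MonoidAlgebra ℤ S) →ₗ[MonoidAlgebra ℤ S] (Y' →₀ MonoidAlgebra ℤ S)
  f : (Y →₀ MonoidAlgebra ℤ S) →+ BC S (k + 1)
  g : BC S (k + 1) →+ (Y →₀ MonoidAlgebra ℤ S)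
  g' : BC S k →+ (Y' →₀ MonoidAlgebra ℤ S)
  h : BC S (k + 1) →+ BC S (k + 2)
  h' : BC S k →+ BC S (k + 1)
  f_eqv : ∀ s v, f (sact s v) = act s (f v)
  g_eqv : ∀ s v, g (act s v) = sact s (g v)
  g'_eqv : ∀ s v, g' (act s v) = sact s (g' v)
  h'_eqv : ∀ s v, h' (act s v) = act s (h' v)
  hom : ∀ v, v - f (g v) = bd S (k + 1) (h v) + h' (bd S k v)
  comm : ∀ v, dd (g v) = g' (bd S k v)

/-! ## Multi-derivations on `S` and on `∏ K_j` -/

/-- the function of `n` variables in `S` given by a multi-derivation -/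
noncomputable def wS {n : ℕ} {L : Fin n → Type} [∀ j, Group (L j)] {S : Type} [Group S]
    (π : S →* ∀ j, L j) (w : (∀ j, L j) → L2 (∀ j, L j)) : (Fin n → S) → L2 (∀ j, L j) :=
  fun t => w (fun j => π (t j) j)

/-- `K_j` acting on `∏ K_j` by left multiplication -/
def lmJ {n : ℕ} (K : Fin n → Type) [∀ j, Group (K j)] (j : Fin n) :
    K j →* Equiv.Perm (∀ j, K j) := (lmP (∀ j, K j)).comp (MonoidHom.mulSingle K j)

/-- the inclusion of a product of subgroups -/
def inclN {n : ℕ} {L : Fin n → Type} [∀ j, Group (L j)] (N : ∀ j, Subgroup (L j)) :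
    (∀ j, N j) → (∀ j, L j) := fun y j => (y j : L j)

lemma inclN_inj {n : ℕ} {L : Fin n → Type} [∀ j, Group (L j)] (N : ∀ j, Subgroup (L j)) :
    Function.Injective (inclN N) := by
  intro y y' h
  funext j
  exact Subtype.ext (congrFun h j)

/-- the restriction of a function `w : ∏ L_j → ℓ²(∏ L_j)` to a function
`∏ N_j → ℓ²(∏ N_j)` -/
noncomputable def resN {n : ℕ} {L : Fin n → Type} [∀ j, Group (L j)] (N : ∀ j, Subgroup (L j))
    (w : (∀ j, L j) → L2 (∀ j, L j)) : (∀ j, N j) → L2 (∀ j, N j) :=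
  fun y => pull (inclN N) (inclN_inj N) (w (inclN N y))

section kap

variable {n : ℕ} {K : Fin n → Type} [∀ j, Group (K j)] {Ω : Type}

/-- normalization in the variable `j`; `D j` is the inverse of `4 - a_j - a_j⁻¹ - b_j - b_j⁻¹` -/
noncomputable def kap1 (α : ∀ j, K j →* Equiv.Perm Ω) (D : Fin n → L2 Ω →L[ℝ] L2 Ω)
    (a b : ∀ j, K j) (j : Fin n) (v : (∀ j, K j) → L2 Ω) : (∀ j, K j) → L2 Ω :=
  fun x => v x -
    (tr (α j (x j)) (D j ((4 : ℝ) • v (Function.update x j 1) - v (Function.update x j (a j)) -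
      v (Function.update x j (a j)⁻¹) - v (Function.update x j (b j)) -
      v (Function.update x j (b j)⁻¹))) -
    D j ((4 : ℝ) • v (Function.update x j 1) - v (Function.update x j (a j)) -
      v (Function.update x j (a j)⁻¹) - v (Function.update x j (b j)) -
      v (Function.update x j (b j)⁻¹)))

/-- normalization in all variables -/
noncomputable def kap (α : ∀ j, K j →* Equiv.Perm Ω) (D : Fin n → L2 Ω →L[ℝ] L2 Ω)
    (a b : ∀ j, K j) (v : (∀ j, K j) → L2 Ω) : (∀ j, K j) → L2 Ω :=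
  (List.finRange n).foldr (fun j v => kap1 α D a b j v) v

/-- the hypotheses on the data -/
structure KapData (α : ∀ j, K j →* Equiv.Perm Ω) (D : Fin n → L2 Ω →L[ℝ] L2 Ω)
    (a b : ∀ j, K j) : Prop where
  comm : ∀ i j, i ≠ j → ∀ g h, α i g * α j h = α j h * α i g
  left : ∀ j ξ, D j (Lap (α j) (a j) (b j) ξ) = ξ
  right : ∀ j ξ, Lap (α j) (a j) (b j) (D j ξ) = ξ

end kap

end Pool.Agent.Lib.MP_b1a3a4_al.MVS.LG
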