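import Pool.Agent.Lib.MP_b1a3a4_al.MVS.LG.Defs

/-!
# Project MVS, part IV (limit groups): statements of all modules

The proofs are in `Paper.md`, section 12.
-/

set_option linter.all false

namespace Pool.Agent.Lib.MP_b1a3a4_al.MVS.LG

open Finsupp

/-! ## A. Hilbert spaces -/

/-- POW (12.1) -/
def PowStatement : Prop :=
  ∀ (H H' : Type) [NormedAddCommGroup H] [InnerProductSpace ℝ H] [CompleteSpace H]
    [NormedAddCommGroup H'] [InnerProductSpace ℝ H'] [CompleteSpace H']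
    (C : H →L[ℝ] H') (P : H →L[ℝ] H), ‖C‖ ≤ 1 → IsPr P → (∀ ξ, C (P ξ) = C ξ) →
    (∀ ξ, C (P ξ) = 0 → P ξ = 0) →
    ∀ ξ, (∀ t : ℕ, ‖ξ - P ξ‖ ^ 2 ≤
      ‖((ContinuousLinearMap.id ℝ H - (ContinuousLinearMap.adjoint C).comp C) ^ t) ξ‖ ^ 2) ∧
    Filter.Tendsto (fun t : ℕ =>
      ‖((ContinuousLinearMap.id ℝ H - (ContinuousLinearMap.adjoint C).comp C) ^ t) ξ‖ ^ 2)
      Filter.atTop (nhds (‖ξ - P ξ‖ ^ 2))

/-- HSI (12.2) -/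
def HsiStatement : Prop :=
  ∀ (T Ω Ω' : Type) [Group T] (α : T →* Equiv.Perm Ω) (β : T →* Equiv.Perm Ω'), FreeAct α →
    ∀ Y : Finset Ω', (∀ ω', ∃ t, ∃ y ∈ Y, β t y = ω') → ∀ E : L2 Ω →L[ℝ] L2 Ω', Eqv α β E →
    ∀ F : Finset Ω, DiffOrb α F →
      ∑ ω ∈ F, ‖E (bv ω)‖ ^ 2 ≤ ∑ y ∈ Y, ‖ContinuousLinearMap.adjoint E (bv y)‖ ^ 2

/-- DIM (12.3): monotonicity of the dimension -/
def DimStatement : Prop :=
  ∀ (T Ω Ω' : Type) [Group T] (α : T →* Equiv.Perm Ω) (β : T →* Equiv.Perm Ω'), FreeAct α →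
    ∀ Y : Finset Ω', (∀ ω', ∃ t, ∃ y ∈ Y, β t y = ω') → ∀ (A : L2 Ω →L[ℝ] L2 Ω')
    (P : L2 Ω →L[ℝ] L2 Ω) (P' : L2 Ω' →L[ℝ] L2 Ω'), IsPr P → IsPr P' → Eqv α β A → Eqv α α P →
    Eqv β β P' → (∀ ξ, P' (A (P ξ)) = A (P ξ)) → (∀ ξ, A (P ξ) = 0 → P ξ = 0) →
    ∀ F : Finset Ω, DiffOrb α F → ∑ ω ∈ F, ‖P (bv ω)‖ ^ 2 ≤ ∑ y ∈ Y, ‖P' (bv y)‖ ^ 2

/-- PROJ (12.4): projections to invariant closed subspaces -/
def ProjStatement : Prop :=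
  (∀ (T Ω : Type) [Group T] (α : T →* Equiv.Perm Ω) (W : Submodule ℝ (L2 Ω)),
    IsClosed (W : Set (L2 Ω)) → (∀ t, ∀ ξ ∈ W, tr (α t) ξ ∈ W) →
    ∃ P : L2 Ω →L[ℝ] L2 Ω, IsPr P ∧ (∀ ξ, P ξ = ξ ↔ ξ ∈ W) ∧ Eqv α α P) ∧
  ∀ (Ω : Type) (P : ℕ → L2 Ω →L[ℝ] L2 Ω), (∀ m, IsPr (P m)) →
    (∀ m ξ, P (m + 1) ξ = ξ → P m ξ = ξ) → (∀ ξ, (∀ m, P m ξ = ξ) → ξ = 0) →
    ∀ ξ, Filter.Tendsto (fun m => ‖P m ξ‖ ^ 2) Filter.atTop (nhds 0)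

/-- SGAPI (12.5) -/
def SgapiStatement : Prop :=
  ∀ (K Ω : Type) [Group K] (α : K →* Equiv.Perm Ω), FreeAct α → ∀ a b : K, FreePair a b →
    ∃ ε : ℝ, 0 < ε ∧ ∀ ξ : L2 Ω, ε * ‖ξ‖ ^ 2 ≤ ‖tr (α a) ξ - ξ‖ ^ 2 + ‖tr (α b) ξ - ξ‖ ^ 2

/-- SGAP (12.5) -/
def SgapStatement : Prop :=
  ∀ (K Ω : Type) [Group K] (α : K →* Equiv.Perm Ω), FreeAct α → ∀ a b : K, FreePair a b →
    ∃ D : L2 Ω →L[ℝ] L2 Ω, (∀ ξ, D (Lap α a b ξ) = ξ) ∧ ∀ ξ, Lap α a b (D ξ) = ξ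

/-! ## B. Limit groups -/

/-- FRN (12.6) -/
def FrnStatement : Prop :=
  ∀ (F : Type) [Group F] [IsFreeGroup F], NonAb F → ∀ N : Subgroup F, N.Normal → N ≠ ⊥ →
    ∃ a ∈ N, ∃ b ∈ N, a * b ≠ b * a

/-- PAIR (12.7) -/
def PairStatement : Prop :=
  ∀ (L : Type) [Group L], FRF L → NonAb L → ∀ N : Subgroup L, N.Normal → N ≠ ⊥ →
    ∃ a ∈ N, ∃ b ∈ N, FreePair a b

/-- REDF (12.8) -/
def RedfStatement : Prop :=
  ∀ (F : Type) [Group F] [IsFreeGroup F], NonAb F → ∀ (r : ℕ) (φ : FreeGroup (Fin r) →* F),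
    Function.Surjective φ →
    ∀ P : L2 (Fin r × F) →L[ℝ] L2 (Fin r × F), IsPr P → Eqv (rmX (Fin r) F) (rmX (Fin r) F) P →
    (∀ (δ : F → L2 F) (u : L2 (Fin r × F)), Der δ → (∀ i, δ (φ (FreeGroup.of i)) = co i u) →
      (∑ i, (lm (φ (FreeGroup.of i))⁻¹ (co i u) - co i u)) = 0 → P u = u) →
    1 ≤ ∑ i, ‖P (bv (i, 1))‖ ^ 2

/-- APPROX (12.9) -/
def ApproxStatement : Prop :=
  ∀ (r m : ℕ) (w : Fin m → FreeGroup (Fin r)),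
    ∃ a : ∀ (L : Type) [Group L], (FreeGroup (Fin r) →* L) → ℕ → ℝ,
    (∀ (L : Type) [Group L] (φ : FreeGroup (Fin r) →* L)
      (P : L2 (Fin r × L) →L[ℝ] L2 (Fin r × L)), IsPr P → (∀ u, P u = u ↔ InV φ w u) →
      (∀ t, ∑ i, ‖P (bv (i, 1))‖ ^ 2 ≤ a L φ t) ∧
      Filter.Tendsto (a L φ) Filter.atTop (nhds (∑ i, ‖P (bv (i, 1))‖ ^ 2))) ∧
    ∀ (L : Type) [Group L] (φ : FreeGroup (Fin r) →* L) (t : ℕ), ∃ X : Finset L,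
      ∀ (F : Type) [Group F] (f : L →* F), Set.InjOn f (X : Set L) →
        a F (f.comp φ) t = a L φ t

/-- VSUB (12.10): the subspaces `V(φ, w)` are closed and invariant -/
def VsubStatement : Prop :=
  ∀ (r m : ℕ) (w : Fin m → FreeGroup (Fin r)) (L : Type) [Group L] (φ : FreeGroup (Fin r) →* L),
    ∃ P : L2 (Fin r × L) →L[ℝ] L2 (Fin r × L), IsPr P ∧ (∀ u, P u = u ↔ InV φ w u) ∧
      Eqv (rmX (Fin r) L) (rmX (Fin r) L) P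

/-- RED (12.11): the reduced first `ℓ²`-cohomology of a non-abelian limit group does not vanish -/
def RedStatement : Prop :=
  ∀ (L : Type) [Group L] (r : ℕ) (x : Fin r → L), Subgroup.closure (Set.range x) = ⊤ → FRF L →
    NonAb L → ∃ δ : L → L2 L, Der δ ∧ (∃ g, δ g ≠ 0) ∧
      ∀ ξ : L2 L, ∑ i, inner ℝ (δ (x i)) (lm (x i) ξ - ξ) = 0

/-! ## C. The space `W` -/

/-- TENS (12.12): products of vectors -/
def TensStatement : Prop :=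
  ∀ (n : ℕ) (L : Fin n → Type) [∀ j, Group (L j)],
    ∃ T : (∀ j, L2 (L j)) → L2 (∀ j, L j), (∀ ξ g, T ξ g = ∏ j, ξ j (g j)) ∧
      ∀ (j : Fin n) (r : ℕ) (x : Fin r → L j) (η : Fin r → L2 (L j)),
        (∀ ζ : L2 (L j), ∑ i, inner ℝ (η i) (lm (x i) ζ - ζ) = 0) →
        ∀ (ξ : ∀ j, L2 (L j)) (b : L2 (∀ j, L j)),
          ∑ i, inner ℝ (T (Function.update ξ j (η i))) (lm (Pi.mulSingle j (x i)) b - b) = 0

/-- EVB (12.13): multi-derivations are bounded by their values on generators -/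
def EvbStatement : Prop :=
  ∀ (n : ℕ) (L : Fin n → Type) [∀ j, Group (L j)] (r : Fin n → ℕ) (x : ∀ j, Fin (r j) → L j),
    (∀ j, Subgroup.closure (Set.range (x j)) = ⊤) → ∀ y : ∀ j, L j, ∃ C : ℝ, 0 ≤ C ∧
    ∀ w : (∀ j, L j) → L2 (∀ j, L j), MDer w →
      ‖w y‖ ≤ C * ∑ i : (∀ j, Fin (r j)), ‖w (fun j => x j (i j))‖

/-- WSP (12.14) -/
def WspStatement : Prop :=
  ∀ (n : ℕ) (L : Fin n → Type) [∀ j, Group (L j)] (r : Fin n → ℕ) (x : ∀ j, Fin (r j) → L j),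
    (∀ j, Subgroup.closure (Set.range (x j)) = ⊤) →
    (∀ j, ∃ δ : L j → L2 (L j), Der δ ∧ (∃ g, δ g ≠ 0) ∧
      ∀ ξ : L2 (L j), ∑ i, inner ℝ (δ (x j i)) (lm (x j i) ξ - ξ) = 0) →
    ∃ (P : L2 ((∀ j, Fin (r j)) × (∀ j, L j)) →L[ℝ] L2 ((∀ j, Fin (r j)) × (∀ j, L j)))
      (Ev : (∀ j, L j) → (L2 ((∀ j, Fin (r j)) × (∀ j, L j)) →L[ℝ] L2 (∀ j, L j))),
      IsPr P ∧ Eqv (rmX _ _) (rmX _ _) P ∧ (∀ y, Eqv (rmX _ _) (rmP _) (Ev y)) ∧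
      (∀ u, P u = u → MDer (fun y => Ev y u) ∧ (∀ i, Ev (fun j => x j (i j)) u = co i u) ∧
        Orth x u) ∧
      ∃ i, P (bv (i, 1)) ≠ 0

/-! ## D. Normalization of multi-derivations -/

/-- KAP (12.15) -/
def KapStatement : Prop :=
  (∀ (n : ℕ) (K : Fin n → Type) [∀ j, Group (K j)] (Ω : Type) (α : ∀ j, K j →* Equiv.Perm Ω)
    (D : Fin n → L2 Ω →L[ℝ] L2 Ω) (a b : ∀ j, K j), KapData α D a b →
    (∀ v, (∀ x, kap α D a b v x = 0) ↔ PI α v) ∧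
    (∀ (V : ℕ → (∀ j, K j) → L2 Ω) (v : (∀ j, K j) → L2 Ω),
      (∀ x, Filter.Tendsto (fun i => V i x) Filter.atTop (nhds (v x))) → (∀ i, PI α (V i)) →
      PI α v)) ∧
  /- naturality in `Ω` -/
  (∀ (n : ℕ) (K : Fin n → Type) [∀ j, Group (K j)] (Ω Ω' : Type)
    (α : ∀ j, K j →* Equiv.Perm Ω) (α' : ∀ j, K j →* Equiv.Perm Ω')
    (D : Fin n → L2 Ω →L[ℝ] L2 Ω) (D' : Fin n → L2 Ω' →L[ℝ] L2 Ω') (a b : ∀ j, K j),
    KapData α D a b → KapData α' D' a b → ∀ Q : L2 Ω →L[ℝ] L2 Ω',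
    (∀ j g ξ, Q (tr (α j g) ξ) = tr (α' j g) (Q ξ)) →
    ∀ v x, kap α' D' a b (fun x => Q (v x)) x = Q (kap α D a b v x)) ∧
  /- naturality in the groups -/
  (∀ (n : ℕ) (K K' : Fin n → Type) [∀ j, Group (K j)] [∀ j, Group (K' j)] (ι : ∀ j, K' j →* K j)
    (Ω : Type) (α : ∀ j, K j →* Equiv.Perm Ω) (D : Fin n → L2 Ω →L[ℝ] L2 Ω) (a b : ∀ j, K' j)
    (v : (∀ j, K j) → L2 Ω) (x : ∀ j, K' j),
    kap (fun j => (α j).comp (ι j)) D a b (fun x => v (fun j => ι j (x j))) x =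
      kap α D (fun j => ι j (a j)) (fun j => ι j (b j)) v (fun j => ι j (x j))) ∧
  /- multi-derivations -/
  (∀ (n : ℕ) (L : Fin n → Type) [∀ j, Group (L j)] (D : Fin n → L2 (∀ j, L j) →L[ℝ] L2 (∀ j, L j))
    (a b : ∀ j, L j), KapData (lmJ L) D a b → ∀ w, MDer w → MDer (kap (lmJ L) D a b w))

/-- INJ2 (12.16) -/
def Inj2Statement : Prop :=
  ∀ (n : ℕ) (L : Fin n → Type) [∀ j, Group (L j)] (N : ∀ j, Subgroup (L j)),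
    (∀ j, (N j).Normal) → (∀ j, ∃ a ∈ N j, ∃ b ∈ N j, FreePair a b) →
    ∀ w : (∀ j, L j) → L2 (∀ j, L j), MDer w → PI (lmJ (fun j => N j)) (resN N w) →
    PI (lmJ L) w

/-- ORT (12.17) -/
def OrtStatement : Prop :=
  ∀ (n : ℕ) (L : Fin n → Type) [∀ j, Group (L j)] (r : Fin n → ℕ) (x : ∀ j, Fin (r j) → L j)
    (w : (∀ j, L j) → L2 (∀ j, L j)) (u : L2 ((∀ j, Fin (r j)) × (∀ j, L j))),
    PI (lmJ L) w → (∀ i, w (fun j => x j (i j)) = co i u) → Orth x u → u = 0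

/-! ## E. Cochains -/

/-- BAR (12.18): the bar complex is a free resolution -/
def BarStatement : Prop :=
  ∀ (S : Type) [Group S], ∃ (E : GRes ℤ S)
    (θ : ∀ q, (E.X q →₀ MonoidAlgebra ℤ S) ≃+ BC S q),
    (∀ q s v, θ q (sact s v) = act s (θ q v)) ∧
    ∀ q v, bd S q (θ (q + 1) v) = θ q (E.d q v)

/-- BARFP (12.19) -/
def BarfpStatement : Prop :=
  ∀ (S : Type) [Group S] (k : ℕ), FPn ℤ S (k + 1) → Nonempty (BarFP S k)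

/-- CUPCOC (12.20) -/
def CupcocStatement : Prop :=
  ∀ (S V : Type) [AddCommGroup V] (n : ℕ) (w : (Fin n → S) → V) (t : Fin (n + 2) → S),
    ∑ k : Fin (n + 2), ((-1 : ℤ) ^ (k : ℕ)) • cup n w (fun i => t (k.succAbove i)) = 0

/-- CUPEQ (12.21) -/
def CupeqStatement : Prop :=
  ∀ (n : ℕ) (L : Fin n → Type) [∀ j, Group (L j)] (S : Type) [Group S] (π : S →* ∀ j, L j)
    (w : (∀ j, L j) → L2 (∀ j, L j)), MDer w → ∀ (s : S) (t : Fin (n + 1) → S),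
    cup n (wS π w) (fun i => s * t i) = lm (π s) (cup n (wS π w) t)

/-- PRISM (12.22) -/
def PrismStatement : Prop :=
  ∀ (S : Type) [Group S] (y : S),
    (∀ q (v : BC S (q + 1)), bd S (q + 1) (pri y (q + 1) v) + pri y q (bd S q v) = rmul y v - v) ∧
    (∀ v : BC S 0, bd S 0 (pri y 0 v) = rmul y v - v) ∧
    ∀ q (s : S) (v : BC S q), pri y q (act s v) = act s (pri y q v)

/-- ZCH (12.23) -/
def ZchStatement : Prop :=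
  ∀ (k : ℕ) (L : Fin (k + 1) → Type) [∀ j, Group (L j)] (S : Type) [Group S]
    (π : S →* ∀ j, L j) (N : ∀ j, Subgroup (L j)) (ν : ∀ j, N j →* S),
    (∀ j y, π (ν j y) = Pi.mulSingle j (y : L j)) →
    (∀ i j, i ≠ j → ∀ y y', ν i y * ν j y' = ν j y' * ν i y) →
    ∃ (z : (∀ j, N j) → BC S (k + 1)) (a : Fin (k + 1) → (∀ j, N j) → BC S k) (e : ℤ),
      (e = 1 ∨ e = -1) ∧ (∀ j y g, a j (Function.update y j g) = a j y) ∧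
      (∀ y, bd S k (z y) = ∑ j, (act (ν j (y j)) (a j y) - a j y)) ∧
      ∀ w, MDer w → ∀ y, ev (cup (k + 1) (wS π w)) (z y) = e • w (inclN N y)

/-- INJ1 (12.24) -/
def Inj1Statement : Prop :=
  ∀ (k : ℕ) (L : Fin (k + 1) → Type) [∀ j, Group (L j)] (S : Type) [Group S]
    (π : S →* ∀ j, L j) (N : ∀ j, Subgroup (L j)), (∀ j, ∃ a ∈ N j, ∃ b ∈ N j, FreePair a b) →
    ∀ ν : ∀ j, N j →* S, (∀ j y, π (ν j y) = Pi.mulSingle j (y : L j)) →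
    (∀ i j, i ≠ j → ∀ y y', ν i y * ν j y' = ν j y' * ν i y) →
    ∀ (B : BarFP S k) (w : (∀ j, L j) → L2 (∀ j, L j)), MDer w →
    ∀ b : ℕ → B.Y' → L2 π.range,
    (∀ y : B.Y, Filter.Tendsto (fun i =>
      ext ((lmP π.range).comp π.rangeRestrict) (b i) (B.dd (single y 1))) Filter.atTop
      (nhds (pull (Subtype.val : π.range → ∀ j, L j) Subtype.val_injective
        (ev (cup (k + 1) (wS π w)) (B.f (single y 1)))))) →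
    PI (lmJ (fun j => N j)) (resN N w)

/-! ## F. The virtual surjection theorem -/

/-- VSL2 (12.25) -/
def Vsl2Statement : Prop :=
  ∀ (k : ℕ) (L : Fin (k + 1) → Type) [∀ j, Group (L j)] (S : Type) [Group S]
    (π : S →* ∀ j, L j) (N : ∀ j, Subgroup (L j)), (∀ j, (N j).Normal) → (∀ j, N j ≠ ⊥) →
    (∀ j, Group.FG (L j)) → (∀ j, FRF (L j)) → (∀ j, NonAb (L j)) →
    ∀ ν : ∀ j, N j →* S, (∀ j y, π (ν j y) = Pi.mulSingle j (y : L j)) →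
    (∀ i j, i ≠ j → ∀ y y', ν i y * ν j y' = ν j y' * ν i y) →
    FPn ℤ S (k + 1) → π.range.FiniteIndex

/-- VSLIM (12.26) -/
def VslimStatement : Prop :=
  ∀ n : ℕ, 1 ≤ n → ∀ (I : Type) [Fintype I] [DecidableEq I] (L : I → Type) [∀ i, Group (L i)],
    (∀ i, FRF (L i)) → ∀ (U : Finset I) (S : Subgroup (∀ i, L i)),
    (∀ s ∈ S, ∀ i, i ∉ U → s i = 1) → (∀ i ∈ U, nr S i ≠ ⊥) →
    (∀ i ∈ U, NonAb (pr S i) ∨ IsCyclic (pr S i)) → FPn ℤ S n →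
    ∀ J : Finset I, J ⊆ U → J.card = n → (S ⊔ kerJ L J).relIndex (piS U S) ≠ 0

/-- LGRED (12.27) -/
def LgredStatement : Prop :=
  ∀ n : ℕ, 1 ≤ n → ∀ (I : Type) [Fintype I] [DecidableEq I] (L : I → Type) [∀ i, Group (L i)],
    (∀ i, FRF (L i)) → ∀ S : Subgroup (∀ i, L i), (∀ i, NonAb (pr S i) ∨ IsCyclic (pr S i)) →
    n ≤ Fintype.card I → FPn ℤ S n → ∀ χ : Chr S, χ ≠ 0 → CharCond n L S χ →
    ∃ (I' : Type) (_ : Fintype I') (_ : DecidableEq I') (L' : I' → Type)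
      (_ : ∀ i, Group (L' i)) (S' : Subgroup (∀ i, L' i)) (e : S' ≃* S),
      n ≤ Fintype.card I' ∧ (∀ J : Finset I', J.card = n → (S'.map (projJ L' J)).FiniteIndex) ∧
      CharCond n L' S' (χ.res (e : S' →* S))

end Pool.Agent.Lib.MP_b1a3a4_al.MVS.LG
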