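import Pool.Agent.Lib.MP_b1a3a4_al.MVS.HO.Main2
import Pool.Agent.Lib.MP_b1a3a4_al.MVS.LG.H14.Vsub
import Pool.Agent.Lib.MP_b1a3a4_al.MVS.LG.H15.Evb
import Pool.Agent.Lib.MP_b1a3a4_al.MVS.LG.H15.Redf
import Pool.Agent.Lib.MP_b1a3a4_al.MVS.LG.H15.Tens
import Pool.Agent.Lib.MP_b1a3a4_al.MVS.LG.H16.Approx
import Pool.Agent.Lib.MP_b1a3a4_al.MVS.LG.H32.Prism
import Pool.Agent.Lib.MP_b1a3a4_al.MVS.LG.H32.Zch
import Pool.Agent.Lib.MP_b1a3a4_al.MVS.LG.H34.Frn
import Pool.Agent.Lib.MP_b1a3a4_al.MVS.LG.H34.Sgapi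
import Pool.Agent.Lib.MP_b1a3a4_al.MVS.LG.H43.Cup
import Pool.Agent.Lib.MP_b1a3a4_al.MVS.LG.H43.Vslim
import Pool.Agent.Lib.MP_b1a3a4_al.MVS.LG.H45.FinalLg
import Pool.Agent.Lib.MP_b1a3a4_al.MVS.LG.H45.Lgred
import Pool.Agent.Lib.MP_b1a3a4_al.MVS.LG.H45.Proj
import Pool.Agent.Lib.MP_b1a3a4_al.MVS.LG.H54.Ort
import Pool.Agent.Lib.MP_b1a3a4_al.MVS.LG.H54.Pair
import Pool.Agent.Lib.MP_b1a3a4_al.MVS.LG.H54.Sgap
import Pool.Agent.Lib.MP_b1a3a4_al.MVS.LG.H57.Inj2
import Pool.Agent.Lib.MP_b1a3a4_al.MVS.LG.H57.Vsl2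
import Pool.Agent.Lib.MP_b1a3a4_al.MVS.LG.H58.Pow
import Pool.Agent.Lib.MP_b1a3a4_al.MVS.LG.H63.Kap
import Pool.Agent.Lib.MP_b1a3a4_al.MVS.LG.H63.Wsp
import Pool.Agent.Lib.MP_b1a3a4_al.MVS.LG.H67.Bar
import Pool.Agent.Lib.MP_b1a3a4_al.MVS.LG.H67.Barfp
import Pool.Agent.Lib.MP_b1a3a4_al.MVS.LG.H72.Inj1
import Pool.Agent.Lib.MP_b1a3a4_al.MVS.LG.H72.Red
import Pool.Agent.Lib.MP_b1a3a4_al.MVS.LG.H98.Dim
import Pool.Agent.Lib.MP_b1a3a4_al.MVS.LG.H98.Hsi

/-!
# Project MVS, part IV (limit groups): assembly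
-/

set_option linter.all false

namespace Pool.Agent.Lib.MP_b1a3a4_al.MVS.LG

open MVS.HO

theorem powT : PowStatement := H58.pow
theorem hsiT : HsiStatement := H98.hsi
theorem dimT : DimStatement := H98.dim powT hsiT
theorem projT : ProjStatement := H45.proj
theorem sgapiT : SgapiStatement := H34.sgapi
theorem sgapT : SgapStatement := H54.sgap sgapiT
theorem frnT : FrnStatement := H34.frn
theorem pairT : PairStatement := H54.pair frnT
theorem redfT : RedfStatement := H15.redf dimT projT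
theorem approxT : ApproxStatement := H16.approx powT
theorem vsubT : VsubStatement := H14.vsub projT
theorem redT : RedStatement := H72.red redfT approxT vsubT projT
theorem tensT : TensStatement := H15.tens
theorem evbT : EvbStatement := H15.evb
theorem wspT : WspStatement := H63.wsp projT tensT evbT
theorem kapT : KapStatement := H63.kap
theorem inj2T : Inj2Statement := H57.inj2 sgapT kapT
theorem ortT : OrtStatement := H54.ort
theorem barT : BarStatement := H67.bar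
theorem barfpT : BarfpStatement := H67.barfp barT fpresT heqT
theorem cupcocT : CupcocStatement := H43.cupcoc
theorem cupeqT : CupeqStatement := H43.cupeq
theorem prismT : PrismStatement := H32.prism
theorem zchT : ZchStatement := H32.zch prismT
theorem inj1T : Inj1Statement := H72.inj1 sgapT kapT zchT cupcocT cupeqT
theorem vsl2T : Vsl2Statement := H57.vsl2 dimT projT pairT redT wspT barfpT inj1T inj2T ortT
theorem vslimT : VslimStatement := H43.vslim vsl2T fpfgT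
theorem lgredT : LgredStatement := H45.lgred vslimT fpisoT
theorem finallgT : H45.FinalLgStatement :=
  H45.finallg top1T fpisoT fpqT finindT tophoT convT fprT lgredT

end Pool.Agent.Lib.MP_b1a3a4_al.MVS.LG
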